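import Mathlib

set_option autoImplicit false

open SimpleGraph

namespace Pool.Agent.P.MP_42d775_co

variable {α β : Type}

/-- lexicographic product -/
def lex (F : SimpleGraph α) (H : SimpleGraph β) : SimpleGraph (α × β) where
  Adj x y := F.Adj x.1 y.1 ∨ (x.1 = y.1 ∧ H.Adj x.2 y.2)
  symm := ⟨by
    rintro x y (h | ⟨h, h'⟩)
    · exact Or.inl h.symm
    · exact Or.inr ⟨h.symm, h'.symm⟩⟩
  loopless := ⟨by
    rintro x (h | ⟨-, h⟩)
    · exact h.ne rfl
    · exact h.ne rfl⟩

lemma lex_adj {F : SimpleGraph α} {H : SimpleGraph β} {x y : α × β} :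
    (lex F H).Adj x y ↔ F.Adj x.1 y.1 ∨ (x.1 = y.1 ∧ H.Adj x.2 y.2) := Iff.rfl

lemma lex_adj_of_ne {F : SimpleGraph α} {H : SimpleGraph β} {x y : α × β} (h : x.1 ≠ y.1) :
    (lex F H).Adj x y ↔ F.Adj x.1 y.1 := by
  rw [lex_adj]; tauto

lemma lex_adj_of_eq {F : SimpleGraph α} {H : SimpleGraph β} {x y : α × β} (h : x.1 = y.1) :
    (lex F H).Adj x y ↔ H.Adj x.2 y.2 := by
  rw [lex_adj, h]; simp

lemma lex_compl (F : SimpleGraph α) (H : SimpleGraph β) : (lex F H)ᶜ = lex Fᶜ Hᶜ := by
  ext x y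
  by_cases h : x.1 = y.1
  · rw [compl_adj, lex_adj_of_eq h, lex_adj_of_eq h, compl_adj]
    have : x ≠ y ↔ x.2 ≠ y.2 := by
      rw [not_iff_not, Prod.ext_iff]; tauto
    rw [this]
  · rw [compl_adj, lex_adj_of_ne h, lex_adj_of_ne h, compl_adj]
    have : x ≠ y := fun e => h (congrArg Prod.fst e)
    tauto

/-- no odd hole -/
def NoOddHole (G : SimpleGraph α) : Prop :=
  ∀ n : ℕ, 4 ≤ n → Odd n → ¬ cycleGraph n ⊴ G

lemma cycle_prime (m : ℕ) (S : Set (Fin (m + 5)))
    (hS : ∀ k ∉ S, ∀ a ∈ S, ∀ b ∈ S, (cycleGraph (m + 5)).Adj a k → (cycleGraph (m + 5)).Adj b k)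
    {i j : Fin (m + 5)} (hi : i ∈ S) (hj : j ∈ S) (hij : i ≠ j) : ∀ k, k ∈ S := by
  have h1 : ∀ a ∈ S, a + 1 ∈ S := by
    intro a ha
    by_contra hk
    have hadj : (cycleGraph (m + 5)).Adj a (a + 1) := by
      rw [cycleGraph_adj]; right; simp
    have hall : ∀ b ∈ S, b = a ∨ b = a + 2 := by
      intro b hb
      have := hS _ hk a ha b hb hadj
      rw [cycleGraph_adj] at this
      rcases this with h | h
      · right
        have : b = (b - (a + 1)) + (a + 1) := by abel
        rw [this, h, show (2 : Fin (m + 5)) = 1 + 1 from by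
          apply Fin.ext; simp [Fin.val_add]]
        abel
      · left
        have : b = (a + 1) - (a + 1 - b) := by abel
        rw [this, h]; abel
    have h2 : a + 2 ∈ S := by
      rcases hall i hi with h | h
      · rcases hall j hj with h' | h'
        · exact absurd (h.trans h'.symm) hij
        · exact h' ▸ hj
      · exact h ▸ hi
    have e2 : (2 : Fin (m + 5)) = 1 + 1 := by apply Fin.ext; simp [Fin.val_add]
    have e3 : (3 : Fin (m + 5)) = 1 + 1 + 1 := by
      apply Fin.ext; simp [Fin.val_add]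
    have v3 : (3 : Fin (m + 5)).val = 3 := by
      simp [Fin.coe_ofNat_eq_mod, Nat.mod_eq_of_lt]
    have v2 : (2 : Fin (m + 5)).val = 2 := by
      simp [Fin.coe_ofNat_eq_mod, Nat.mod_eq_of_lt]
    have h3 : a + 3 ∉ S := by
      intro h
      rcases hall _ h with h | h
      · have : (3 : Fin (m + 5)) = 0 := by simpa using h
        have := congrArg Fin.val this
        rw [v3] at this; simp at this
      · have : (3 : Fin (m + 5)) = 2 := by simpa using h
        have := congrArg Fin.val this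
        rw [v3, v2] at this; omega
    have hadj2 : (cycleGraph (m + 5)).Adj (a + 2) (a + 3) := by
      rw [cycleGraph_adj]; right; rw [e2, e3]; abel
    have := hS _ h3 _ h2 a ha hadj2
    rw [cycleGraph_adj] at this
    rcases this with h | h
    · have h' : (3 : Fin (m + 5)) + 1 = 0 := by
        have : (3 : Fin (m + 5)) + 1 = 3 + (a - (a + 3)) := by rw [h]
        rw [this]; abel
      have := congrArg Fin.val h'
      rw [Fin.val_add, v3] at this
      simp at this
      have := Nat.le_of_dvd (by norm_num) (Nat.dvd_of_mod_eq_zero this)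
      omega
    · have h' : (3 : Fin (m + 5)) = 1 := by
        rw [← h]; abel
      have := congrArg Fin.val h'
      rw [v3] at this; simp at this
  have h2 : ∀ k : ℕ, i + Fin.ofNat (m + 5) k ∈ S := by
    intro k
    induction k with
    | zero => simpa using hi
    | succ k ih =>
      have : Fin.ofNat (m + 5) (k + 1) = Fin.ofNat (m + 5) k + 1 := by
        apply Fin.ext; simp [Fin.val_add]
      rw [this, ← add_assoc]
      exact h1 _ ih
  intro k
  have := h2 (k - i).val
  simpa using this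

lemma noOddHole_lex {F : SimpleGraph α} {H : SimpleGraph β} (hF : NoOddHole F)
    (hH : NoOddHole H) : NoOddHole (lex F H) := by
  intro n hn hodd ⟨f⟩
  obtain ⟨m, rfl⟩ : ∃ m, n = m + 5 := by
    obtain ⟨k, hk⟩ := hodd
    exact ⟨n - 5, by omega⟩
  by_cases hinj : Function.Injective fun i => (f i).1
  · refine hF _ hn hodd ⟨⟨⟨fun i => (f i).1, hinj⟩, ?_⟩⟩
    intro a b
    change F.Adj (f a).1 (f b).1 ↔ _
    by_cases hab : a = b
    · subst hab; simp
    · rw [← lex_adj_of_ne (H := H) (hinj.ne hab), f.map_rel_iff]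
  · obtain ⟨i, j, hij, hne⟩ := Function.not_injective_iff.1 hinj
    have hall := cycle_prime m {k | (f k).1 = (f i).1} (by
      intro k hk a ha b hb hadj
      simp only [Set.mem_ofPred_eq] at hk ha hb
      rw [← f.map_rel_iff, lex_adj_of_ne (by rw [ha]; exact Ne.symm hk), ha] at hadj
      rw [← f.map_rel_iff, lex_adj_of_ne (by rw [hb]; exact Ne.symm hk), hb]
      exact hadj) (i := i) (j := j) rfl hij.symm hne
    simp only [Set.mem_ofPred_eq] at hall
    refine hH _ hn hodd ⟨⟨⟨fun i => (f i).2, ?_⟩, ?_⟩⟩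
    · intro a b hab
      apply f.injective
      exact Prod.ext ((hall a).trans (hall b).symm) hab
    · intro a b
      change H.Adj (f a).2 (f b).2 ↔ _
      rw [← lex_adj_of_eq (F := F) ((hall a).trans (hall b).symm), f.map_rel_iff]

lemma noOddHole_of_rc {γ : Type} (G : SimpleGraph α) (r c : α → γ)
    (h : ∀ x y, G.Adj x y ↔ x ≠ y ∧ (r x = r y ∨ c x = c y)) : NoOddHole G := by
  intro n hn hodd ⟨f⟩
  obtain ⟨m, rfl⟩ : ∃ m, n = m + 4 := ⟨n - 4, by omega⟩
  have v2 : ((1 : Fin (m + 4)) + 1).val = 2 := by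
    simp [Fin.val_add, Nat.mod_eq_of_lt]
  have hadj : ∀ a : Fin (m + 4), G.Adj (f a) (f (a + 1)) := by
    intro a
    rw [f.map_rel_iff, cycleGraph_adj]; right; simp
  have hne : ∀ a : Fin (m + 4), f a ≠ f (a + 1 + 1) := by
    intro a e
    have := f.injective e
    rw [add_assoc] at this
    have h0 : (1 : Fin (m + 4)) + 1 = 0 := by simpa using this
    have := congrArg Fin.val h0
    rw [v2] at this; simp at this
  have hnadj : ∀ a : Fin (m + 4), ¬ G.Adj (f a) (f (a + 1 + 1)) := by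
    intro a
    rw [f.map_rel_iff, cycleGraph_adj]
    rintro (e | e)
    · have h' : (1 : Fin (m + 4)) + 1 + 1 = 0 := by
        have : (1 : Fin (m + 4)) + 1 + 1 = 1 + 1 + (a - (a + 1 + 1)) := by rw [e]
        rw [this]; abel
      have := congrArg Fin.val h'
      rw [Fin.val_add, v2] at this
      simp at this
      have := Nat.le_of_dvd (by norm_num) (Nat.dvd_of_mod_eq_zero this)
      omega
    · have h' : (1 : Fin (m + 4)) + 1 = 1 := by
        have : (1 : Fin (m + 4)) + 1 = a + 1 + 1 - a := by abel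
        rw [this, e]
      have := congrArg Fin.val h'
      rw [v2] at this; simp at this
  have halt : ∀ a : Fin (m + 4),
      (r (f (a + 1)) = r (f (a + 1 + 1)) ↔ ¬ r (f a) = r (f (a + 1))) := by
    intro a
    have h1 := ((h _ _).1 (hadj a)).2
    have h2 := ((h _ _).1 (hadj (a + 1))).2
    have h3 := hnadj a
    rw [h] at h3
    have h4 : ¬ (r (f a) = r (f (a + 1 + 1)) ∨ c (f a) = c (f (a + 1 + 1))) :=
      fun e => h3 ⟨hne a, e⟩
    constructor
    · intro e e'
      exact h4 (Or.inl (e'.trans e))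
    · intro e
      by_contra e'
      exact h4 (Or.inr ((h1.resolve_left e).trans (h2.resolve_left e')))
  have key : ∀ k : ℕ, (r (f (Fin.ofNat (m + 4) k)) = r (f (Fin.ofNat (m + 4) k + 1)) ↔
      (Even k ↔ r (f 0) = r (f (0 + 1)))) := by
    intro k
    induction k with
    | zero => simp
    | succ k ih =>
      have : Fin.ofNat (m + 4) (k + 1) = Fin.ofNat (m + 4) k + 1 := by
        apply Fin.ext; simp [Fin.val_add]
      rw [this, halt, ih, Nat.even_add_one]
      tauto
  have := key (m + 4)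
  have e0 : Fin.ofNat (m + 4) (m + 4) = 0 := by apply Fin.ext; simp
  rw [e0] at this
  have hne : ¬ Even (m + 4) := Nat.not_even_iff_odd.2 hodd
  tauto

/-- every non-adjacent pair is joined by an induced path of length three -/
def P4Prop (G : SimpleGraph α) : Prop :=
  ∀ x y, x ≠ y → ¬ G.Adj x y →
    ∃ u v, G.Adj x u ∧ G.Adj u v ∧ G.Adj v y ∧ ¬ G.Adj x v ∧ ¬ G.Adj u y ∧ x ≠ v ∧ u ≠ y

lemma p4_lex {F : SimpleGraph α} {H : SimpleGraph β} (hF : P4Prop F) (hH : P4Prop H) :
    P4Prop (lex F H) := by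
  intro x y hxy hn
  by_cases h : x.1 = y.1
  · rw [lex_adj_of_eq h] at hn
    obtain ⟨u, v, h1, h2, h3, h4, h5, h6, h7⟩ := hH x.2 y.2 (fun e => hxy (Prod.ext h e)) hn
    refine ⟨(x.1, u), (x.1, v), ?_, ?_, ?_, ?_, ?_, ?_, ?_⟩
    · exact Or.inr ⟨rfl, h1⟩
    · exact Or.inr ⟨rfl, h2⟩
    · exact Or.inr ⟨h, h3⟩
    · rw [lex_adj_of_eq (x := x) (y := (x.1, v)) rfl]; exact h4
    · rw [lex_adj_of_eq (x := (x.1, u)) (y := y) h]; exact h5
    · exact fun e => h6 (congrArg Prod.snd e)
    · exact fun e => h7 (congrArg Prod.snd e)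
  · rw [lex_adj_of_ne h] at hn
    obtain ⟨u, v, h1, h2, h3, h4, h5, h6, h7⟩ := hF x.1 y.1 h hn
    refine ⟨(u, x.2), (v, x.2), Or.inl h1, Or.inl h2, Or.inl h3, ?_, ?_, ?_, ?_⟩
    · rw [lex_adj_of_ne h6]; exact h4
    · rw [lex_adj_of_ne h7]; exact h5
    · exact fun e => h6 (congrArg Prod.fst e)
    · exact fun e => h7 (congrArg Prod.fst e)

lemma exists_walk3 {G : SimpleGraph α} (hG : P4Prop G) {x y : α} (hxy : x ≠ y)
    (hn : ¬ G.Adj x y) : ∃ p : G.Walk x y, p.IsPath ∧ p.IsChordless ∧ p.length = 3 := by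
  obtain ⟨u, v, h1, h2, h3, h4, h5, h6, h7⟩ := hG x y hxy hn
  have h4' : ¬ G.Adj v x := fun h => h4 h.symm
  have h5' : ¬ G.Adj y u := fun h => h5 h.symm
  have hn' : ¬ G.Adj y x := fun h => hn h.symm
  refine ⟨Walk.cons h1 (Walk.cons h2 (Walk.cons h3 Walk.nil)), ?_, ?_, rfl⟩
  · simp [Walk.isPath_def, h1.ne, h2.ne, h3.ne, hxy, h6, h7]
  · rw [Walk.isChordless_iff_forall_mem_edges]
    intro a b ha hb hab
    simp only [Walk.support_cons, Walk.support_nil, List.mem_cons, List.not_mem_nil,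
      or_false] at ha hb
    rcases ha with rfl | rfl | rfl | rfl <;> rcases hb with rfl | rfl | rfl | rfl <;>
      first
      | exact absurd hab (G.irrefl)
      | contradiction
      | simp

/-- any two equal or non-adjacent vertices have a common neighbour -/
def CommonNbr (G : SimpleGraph α) : Prop :=
  ∀ x y, ¬ G.Adj x y → ∃ m, G.Adj x m ∧ G.Adj m y

/-- there are three pairwise distinct, pairwise non-adjacent vertices -/
def Ind3 (G : SimpleGraph α) : Prop :=
  ∃ a b c, a ≠ b ∧ a ≠ c ∧ b ≠ c ∧ ¬ G.Adj a b ∧ ¬ G.Adj a c ∧ ¬ G.Adj b c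

lemma even_external {F : SimpleGraph α} {H : SimpleGraph β} (hF : CommonNbr F) (hH : Ind3 H)
    [Nonempty α] {K₁ K₂ : Set (α × β)} (h₁ : Maximal (lex F H).IsClique K₁)
    (h₂ : Maximal (lex F H).IsClique K₂) :
    ∃ a ∈ K₁, ∃ b ∈ K₂, ∃ p : (lex F H).Walk a b, p.IsPath ∧ p.IsChordless ∧
      (∀ v ∈ p.support, v ≠ a → v ≠ b → v ∉ K₁ ∪ K₂) ∧ Even p.length := by
  obtain ⟨c1, c2, c3, n12, n13, n23, a12, a13, a23⟩ := hH
  have hne : K₂.Nonempty := by
    by_contra h
    rw [Set.not_nonempty_iff_eq_empty] at h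
    have := h₂.2 (y := {(Classical.arbitrary α, c1)}) (isClique_singleton _) (by simp [h])
    simp [h] at this
  obtain ⟨b, hb⟩ := hne
  by_cases hb1 : b ∈ K₁
  · refine ⟨b, hb1, b, hb, Walk.nil, by simp, ?_, by simp, by simp⟩
    rw [Walk.isChordless_iff_forall_mem_edges]
    intro u v hu hv huv
    simp only [Walk.support_nil, List.mem_singleton] at hu hv
    subst hu hv
    exact absurd huv (lex F H).irrefl
  · have : ∃ a ∈ K₁, ¬ (lex F H).Adj a b := by
      by_contra h
      push Not at h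
      have hc : (lex F H).IsClique (insert b K₁) :=
        h₁.1.insert (fun a ha _ => (h a ha).symm)
      exact hb1 (h₁.2 hc (Set.subset_insert _ _) (Set.mem_insert _ _))
    obtain ⟨a, ha, hab⟩ := this
    have hne : a ≠ b := fun e => hb1 (e ▸ ha)
    obtain ⟨m, hm1, hm2⟩ := hF a.1 b.1 (fun h => hab (Or.inl h))
    have hc : ∃ c : β, (m, c) ∉ K₁ ∪ K₂ := by
      by_contra h
      push Not at h
      have hcl : ∀ K : Set (α × β), (lex F H).IsClique K → ∀ x y : β, x ≠ y → ¬ H.Adj x y →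
          (m, x) ∈ K → (m, y) ∈ K → False := by
        intro K hK x y hxy hn hx hy
        have := hK hx hy (fun e => hxy (congrArg Prod.snd e))
        rw [lex_adj_of_eq (x := (m, x)) (y := (m, y)) rfl] at this
        exact hn this
      rcases h c1 with e1 | e1 <;> rcases h c2 with e2 | e2 <;> rcases h c3 with e3 | e3
      · exact hcl _ h₁.1 _ _ n12 a12 e1 e2
      · exact hcl _ h₁.1 _ _ n12 a12 e1 e2
      · exact hcl _ h₁.1 _ _ n13 a13 e1 e3
      · exact hcl _ h₂.1 _ _ n23 a23 e2 e3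
      · exact hcl _ h₁.1 _ _ n23 a23 e2 e3
      · exact hcl _ h₂.1 _ _ n13 a13 e1 e3
      · exact hcl _ h₂.1 _ _ n12 a12 e1 e2
      · exact hcl _ h₂.1 _ _ n12 a12 e1 e2
    obtain ⟨c, hc⟩ := hc
    have e1 : (lex F H).Adj a (m, c) := Or.inl hm1
    have e2 : (lex F H).Adj (m, c) b := Or.inl hm2
    have hab' : ¬ (lex F H).Adj b a := fun h => hab h.symm
    refine ⟨a, ha, b, hb, Walk.cons e1 (Walk.cons e2 Walk.nil), ?_, ?_, ?_, by simp⟩
    · simp [Walk.isPath_def, e1.ne, e2.ne, hne]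
    · rw [Walk.isChordless_iff_forall_mem_edges]
      intro u v hu hv huv
      simp only [Walk.support_cons, Walk.support_nil, List.mem_cons, List.not_mem_nil,
        or_false] at hu hv
      rcases hu with rfl | rfl | rfl <;> rcases hv with rfl | rfl | rfl <;>
        first
        | exact absurd huv ((lex F H).irrefl)
        | contradiction
        | simp
    · intro v hv h1 h2
      simp only [Walk.support_cons, Walk.support_nil, List.mem_cons, List.not_mem_nil,
        or_false] at hv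
      rcases hv with rfl | rfl | rfl
      · exact absurd rfl h1
      · exact hc
      · exact absurd rfl h2

/-- the 3 by 3 rook graph -/
def rook : SimpleGraph (ZMod 3 × ZMod 3) where
  Adj x y := x ≠ y ∧ (x.1 = y.1 ∨ x.2 = y.2)
  symm := ⟨fun _ _ h => ⟨h.1.symm, h.2.imp Eq.symm Eq.symm⟩⟩
  loopless := ⟨fun _ h => h.1 rfl⟩

instance : DecidableRel rook.Adj := fun x y =>
  inferInstanceAs (Decidable (x ≠ y ∧ (x.1 = y.1 ∨ x.2 = y.2)))

lemma rook_noOddHole : NoOddHole rook :=
  noOddHole_of_rc rook Prod.fst Prod.snd (fun _ _ => Iff.rfl)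

lemma rook_compl_noOddHole : NoOddHole rookᶜ :=
  noOddHole_of_rc rookᶜ (fun x => x.1 - x.2) (fun x => x.1 + x.2) (by decide +kernel)

lemma rook_p4 : P4Prop rook := by unfold P4Prop; decide +kernel
lemma rook_compl_p4 : P4Prop rookᶜ := by unfold P4Prop; decide +kernel
lemma rook_cn : CommonNbr rook := by unfold CommonNbr; decide +kernel
lemma rook_compl_cn : CommonNbr rookᶜ := by unfold CommonNbr; decide +kernel
lemma rook_ind3 : Ind3 rook := ⟨(0, 0), (1, 1), (2, 2), by decide +kernel⟩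
lemma rook_compl_ind3 : Ind3 rookᶜ := ⟨(0, 0), (0, 1), (0, 2), by decide +kernel⟩

end Pool.Agent.P.MP_42d775_co
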