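import Mathlib
import Pool.Agent.P.MP_42d775_co.Lex

set_option autoImplicit false

open SimpleGraph

namespace Pool.Agent.P.MP_42d775_co

variable {α β : Type}

/-- lexicographic product with the pairs `(u, o), (m u, o)` flipped -/
def twist (F : SimpleGraph α) (H : SimpleGraph β) (m : α → α) (hm : ∀ u, m (m u) = u) (o : β) :
    SimpleGraph (α × β) where
  Adj x y := (x.1 = y.1 ∧ H.Adj x.2 y.2) ∨
    (x.1 ≠ y.1 ∧ (F.Adj x.1 y.1 ↔ ¬ (y.1 = m x.1 ∧ x.2 = o ∧ y.2 = o)))
  symm := ⟨by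
    rintro x y (⟨h, h'⟩ | ⟨h, h'⟩)
    · exact Or.inl ⟨h.symm, h'.symm⟩
    · refine Or.inr ⟨h.symm, ?_⟩
      rw [F.adj_comm, h']
      apply not_congr
      constructor
      · rintro ⟨e1, e2, e3⟩
        exact ⟨by rw [e1, hm], e3, e2⟩
      · rintro ⟨e1, e2, e3⟩
        exact ⟨by rw [e1, hm], e3, e2⟩⟩
  loopless := ⟨by
    rintro x (⟨-, h⟩ | ⟨h, -⟩)
    · exact h.ne rfl
    · exact h rfl⟩

section basic

variable {F : SimpleGraph α} {H : SimpleGraph β} {m : α → α} {hm : ∀ u, m (m u) = u} {o : β}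

lemma twist_adj_of_eq {x y : α × β} (h : x.1 = y.1) :
    (twist F H m hm o).Adj x y ↔ H.Adj x.2 y.2 := by
  change (_ ∧ _) ∨ (_ ∧ _) ↔ _
  tauto

lemma twist_adj_of_ne {x y : α × β} (h : x.1 ≠ y.1) :
    (twist F H m hm o).Adj x y ↔ (F.Adj x.1 y.1 ↔ ¬ (y.1 = m x.1 ∧ x.2 = o ∧ y.2 = o)) := by
  change (_ ∧ _) ∨ (_ ∧ _) ↔ _
  tauto

lemma twist_adj_plain {x y : α × β} (h : x.1 ≠ y.1)
    (h' : ¬ (y.1 = m x.1 ∧ x.2 = o ∧ y.2 = o)) :
    (twist F H m hm o).Adj x y ↔ F.Adj x.1 y.1 := by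
  rw [twist_adj_of_ne h]
  tauto

lemma twist_adj_left {x y : α × β} (h : x.1 ≠ y.1) (h' : x.2 ≠ o) :
    (twist F H m hm o).Adj x y ↔ F.Adj x.1 y.1 :=
  twist_adj_plain h (fun e => h' e.2.1)

lemma twist_adj_right {x y : α × β} (h : x.1 ≠ y.1) (h' : y.2 ≠ o) :
    (twist F H m hm o).Adj x y ↔ F.Adj x.1 y.1 :=
  twist_adj_plain h (fun e => h' e.2.2)

lemma twist_compl : (twist F H m hm o)ᶜ = twist Fᶜ Hᶜ m hm o := by
  ext x y
  by_cases h : x.1 = y.1
  · rw [compl_adj, twist_adj_of_eq h, twist_adj_of_eq h, compl_adj]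
    have : x ≠ y ↔ x.2 ≠ y.2 := by
      rw [not_iff_not, Prod.ext_iff]; tauto
    rw [this]
  · rw [compl_adj, twist_adj_of_ne h, twist_adj_of_ne h, compl_adj]
    have : x ≠ y := fun e => h (congrArg Prod.fst e)
    tauto

end basic

lemma cyc_adj_val (k : ℕ) (a b : Fin (k + 5)) :
    (cycleGraph (k + 5)).Adj a b ↔ (a.val + 1 = b.val ∨ b.val + 1 = a.val ∨
      (a.val = 0 ∧ b.val = k + 4) ∨ (b.val = 0 ∧ a.val = k + 4)) := by
  rw [cycleGraph_adj']
  have ha := a.isLt
  have hb := b.isLt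
  rcases lt_trichotomy a b with h | h | h
  · rw [Fin.coe_sub_iff_lt.2 h, Fin.coe_sub_iff_le.2 h.le]
    have : a.val < b.val := h
    omega
  · subst h
    simp only [sub_self, Fin.val_zero]
    omega
  · rw [Fin.coe_sub_iff_lt.2 h, Fin.coe_sub_iff_le.2 h.le]
    have : b.val < a.val := h
    omega

/-- a cycle with the vertex `0` removed is a path without homogeneous sets -/
lemma path_prime (k : ℕ) (S : Set (Fin (k + 5))) (h0 : (0 : Fin (k + 5)) ∉ S)
    (hS : ∀ r ∉ S, r ≠ 0 → ∀ a ∈ S, ∀ b ∈ S,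
      (cycleGraph (k + 5)).Adj a r → (cycleGraph (k + 5)).Adj b r)
    {i j : Fin (k + 5)} (hi : i ∈ S) (hj : j ∈ S) (hij : i ≠ j) : ∀ e, e ≠ 0 → e ∈ S := by
  have hv : ∀ a ∈ S, a.val ≠ 0 := by
    intro a ha e
    exact h0 ((Fin.ext e : a = 0) ▸ ha)
  have hij' : i.val ≠ j.val := fun e => hij (Fin.ext e)
  have h1 : ∀ r ∉ S, r ≠ 0 → ∀ a ∈ S, ¬ (cycleGraph (k + 5)).Adj a r := by
    intro r hr hr0 a ha hadj
    have hr0' : r.val ≠ 0 := fun e => hr0 (Fin.ext e)
    have e1 := hS r hr hr0 a ha i hi hadj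
    have e2 := hS r hr hr0 a ha j hj hadj
    have hall : ∀ b ∈ S, (cycleGraph (k + 5)).Adj b r := fun b hb => hS r hr hr0 a ha b hb hadj
    rw [cyc_adj_val] at e1 e2
    have vi := hv i hi
    have vj := hv j hj
    have li := i.isLt
    have lj := j.isLt
    have lr := r.isLt
    have key : ∀ t : Fin (k + 5), t.val ≠ 0 → (t.val = r.val + 2 ∨ t.val + 2 = r.val) → False := by
      intro t ht htr
      have lt := t.isLt
      have ht0 : t ≠ 0 := fun e => ht (by rw [e]; rfl)
      have htS : t ∉ S := by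
        intro h
        have := hall t h
        rw [cyc_adj_val] at this
        omega
      have f1 := hS t htS ht0 i hi j hj
      have f2 := hS t htS ht0 j hj i hi
      rw [cyc_adj_val, cyc_adj_val] at f1 f2
      omega
    by_cases hc : r.val + 2 < k + 5
    · exact key ⟨r.val + 2, hc⟩ (by simp) (Or.inl rfl)
    · exact key ⟨r.val - 2, by omega⟩ (by simp; omega) (Or.inr (by simp; omega))
  have h2 : ∀ a b : Fin (k + 5), a.val ≠ 0 → a.val + 1 = b.val → (a ∈ S ↔ b ∈ S) := by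
    intro a b ha hab
    have hb0 : b ≠ 0 := by
      intro e
      rw [e] at hab
      simp at hab
    have ha0 : a ≠ 0 := fun e => ha (by rw [e]; rfl)
    have hadj : (cycleGraph (k + 5)).Adj a b := by
      rw [cyc_adj_val]; exact Or.inl hab
    constructor
    · intro h
      by_contra h'
      exact h1 b h' hb0 a h hadj
    · intro h
      by_contra h'
      exact h1 a h' ha0 b h hadj.symm
  have h3 : ∀ t : ℕ, ∀ ht : t + 1 < k + 5,
      ((⟨t + 1, ht⟩ : Fin (k + 5)) ∈ S ↔ (⟨1, by omega⟩ : Fin (k + 5)) ∈ S) := by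
    intro t
    induction t with
    | zero => intro ht; rfl
    | succ t ih =>
      intro ht
      rw [← ih (by omega)]
      exact (h2 _ _ (by simp) rfl).symm
  have h4 : ∀ a : Fin (k + 5), a.val ≠ 0 →
      (a ∈ S ↔ (⟨1, by omega⟩ : Fin (k + 5)) ∈ S) := by
    intro a ha
    have la := a.isLt
    have := h3 (a.val - 1) (by omega)
    have e : (⟨a.val - 1 + 1, by omega⟩ : Fin (k + 5)) = a := Fin.ext (by simp; omega)
    rw [e] at this
    exact this
  intro e he
  have he' : e.val ≠ 0 := fun h => he (Fin.ext h)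
  rw [h4 e he', ← h4 i (hv i hi)]
  exact hi

/-- every graph that agrees with `F` outside the pairs `u, m u` has no odd hole -/
def AllNoOddHole (F : SimpleGraph α) (m : α → α) : Prop :=
  ∀ K : SimpleGraph α, (∀ u v, u ≠ v → v ≠ m u → (K.Adj u v ↔ F.Adj u v)) → NoOddHole K

lemma noOddHole_twist {F : SimpleGraph α} {H : SimpleGraph β} {m : α → α}
    {hm : ∀ u, m (m u) = u} {o : β} (hne : ∀ u, m u ≠ u) (hF : AllNoOddHole F m)
    (hH : NoOddHole H) : NoOddHole (twist F H m hm o) := by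
  classical
  intro n hn hodd ⟨f⟩
  obtain ⟨k, rfl⟩ : ∃ k, n = k + 5 := by
    obtain ⟨k, hk⟩ := hodd
    exact ⟨n - 5, by omega⟩
  by_cases hinj : Function.Injective fun i => (f i).1
  · let s : α → β := fun u => if h : ∃ i, (f i).1 = u then (f h.choose).2 else o
    have hs : ∀ i, ((f i).1, s (f i).1) = f i := by
      intro i
      have h : ∃ j, (f j).1 = (f i).1 := ⟨i, rfl⟩
      have e : h.choose = i := hinj h.choose_spec
      apply Prod.ext
      · rfl
      · simp only [s, dif_pos h, e]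
    refine hF ((twist F H m hm o).comap fun u => (u, s u)) ?_ _ hn hodd
      ⟨⟨⟨fun i => (f i).1, hinj⟩, ?_⟩⟩
    · intro u v huv hv
      rw [comap_adj]
      exact twist_adj_plain huv (fun e => hv e.1)
    · intro a b
      change (twist F H m hm o).Adj ((f a).1, s (f a).1) ((f b).1, s (f b).1) ↔ _
      rw [hs, hs, f.map_rel_iff]
  · obtain ⟨i, j, hij, hne'⟩ := Function.not_injective_iff.1 hinj
    by_cases hq : ∃ q, f q = (m (f i).1, o)
    · obtain ⟨q, hq⟩ := hq
      set u := (f i).1 with hu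
      let g : Fin (k + 5) → α × β := fun a => f (a + q)
      have hg : ∀ a b, (twist F H m hm o).Adj (g a) (g b) ↔ (cycleGraph (k + 5)).Adj a b := by
        intro a b
        simp only [g]
        rw [f.map_rel_iff, cycleGraph_adj, cycleGraph_adj, add_sub_add_right_eq_sub,
          add_sub_add_right_eq_sub]
      have ginj : Function.Injective g := fun a b e => add_right_cancel (f.injective e)
      have g0 : g 0 = (m u, o) := by simp only [g, zero_add, hq]
      have hall := path_prime k {a | (g a).1 = u} (by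
          simp only [Set.mem_ofPred_eq, g0]; exact hne u) (by
          intro r hr hr0 a ha b hb hadj
          simp only [Set.mem_ofPred_eq] at hr ha hb
          have hr' : ¬ ((g r).1 = m u ∧ (g r).2 = o) := by
            rintro ⟨e1, e2⟩
            exact hr0 (ginj (by rw [g0]; exact Prod.ext e1 e2))
          rw [← hg, twist_adj_plain (by rw [ha]; exact Ne.symm hr)
            (by rw [ha]; exact fun e => hr' ⟨e.1, e.2.2⟩), ha] at hadj
          rw [← hg, twist_adj_plain (by rw [hb]; exact Ne.symm hr)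
            (by rw [hb]; exact fun e => hr' ⟨e.1, e.2.2⟩), hb]
          exact hadj) (i := i - q) (j := j - q)
          (by simp only [Set.mem_ofPred_eq, g, sub_add_cancel]; rfl)
          (by simp only [Set.mem_ofPred_eq, g, sub_add_cancel]; exact hij.symm)
          (fun e => hne' (sub_left_injective e))
      simp only [Set.mem_ofPred_eq] at hall
      have hc : ∀ a : Fin (k + 5), a.val ≠ 0 → (g a).2 ≠ o →
          ((cycleGraph (k + 5)).Adj a 0 ↔ F.Adj u (m u)) := by
        intro a ha ha'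
        have ha0 : a ≠ 0 := fun e => ha (by rw [e]; rfl)
        rw [← hg, twist_adj_left (by rw [hall a ha0, g0]; exact (hne u).symm) ha', hall a ha0, g0]
      have huniq : ∀ a b : Fin (k + 5), a.val ≠ 0 → b.val ≠ 0 → a.val ≠ b.val →
          (g a).2 ≠ o ∨ (g b).2 ≠ o := by
        intro a b ha hb hab
        have ha0 : a ≠ 0 := fun e => ha (by rw [e]; rfl)
        have hb0 : b ≠ 0 := fun e => hb (by rw [e]; rfl)
        by_contra h
        push Not at h
        have : a = b := ginj (Prod.ext ((hall a ha0).trans (hall b hb0).symm) (h.1.trans h.2.symm))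
        exact hab (by rw [this])
      have p1 : F.Adj u (m u) := by
        rcases huniq ⟨1, by omega⟩ ⟨k + 4, by omega⟩ (by simp) (by simp) (by simp) with h | h
        · rw [← hc _ (by simp) h, cyc_adj_val]; simp
        · rw [← hc _ (by simp) h, cyc_adj_val]; simp
      have p2 : ¬ F.Adj u (m u) := by
        rcases huniq ⟨2, by omega⟩ ⟨3, by omega⟩ (by simp) (by simp) (by simp) with h | h
        · rw [← hc _ (by simp) h, cyc_adj_val]; simp
        · rw [← hc _ (by simp) h, cyc_adj_val]; simp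
      exact p2 p1
    · push Not at hq
      have hall := cycle_prime k {a | (f a).1 = (f i).1} (by
        intro r hr a ha b hb hadj
        simp only [Set.mem_ofPred_eq] at hr ha hb
        have hr' : ¬ ((f r).1 = m (f i).1 ∧ (f r).2 = o) :=
          fun e => hq r (Prod.ext e.1 e.2)
        rw [← f.map_rel_iff, twist_adj_plain (by rw [ha]; exact Ne.symm hr)
          (by rw [ha]; exact fun e => hr' ⟨e.1, e.2.2⟩), ha] at hadj
        rw [← f.map_rel_iff, twist_adj_plain (by rw [hb]; exact Ne.symm hr)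
          (by rw [hb]; exact fun e => hr' ⟨e.1, e.2.2⟩), hb]
        exact hadj) (i := i) (j := j) rfl hij.symm hne'
      simp only [Set.mem_ofPred_eq] at hall
      refine hH _ hn hodd ⟨⟨⟨fun i => (f i).2, ?_⟩, ?_⟩⟩
      · intro a b hab
        apply f.injective
        exact Prod.ext ((hall a).trans (hall b).symm) hab
      · intro a b
        change H.Adj (f a).2 (f b).2 ↔ _
        rw [← twist_adj_of_eq (F := F) (m := m) (hm := hm) (o := o)
          ((hall a).trans (hall b).symm), f.map_rel_iff]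

/-- an induced path of length three between `u` and `v`, up to the pair `u, v` itself -/
def P4Mate (F : SimpleGraph α) (m : α → α) : Prop :=
  ∀ x y, x ≠ y → (¬ F.Adj x y ∨ y = m x) →
    ∃ u v, F.Adj x u ∧ F.Adj u v ∧ F.Adj v y ∧ ¬ F.Adj x v ∧ ¬ F.Adj u y ∧ x ≠ v ∧ u ≠ y

lemma p4_twist {F : SimpleGraph α} {H : SimpleGraph β} {m : α → α}
    {hm : ∀ u, m (m u) = u} {o : β} (hF : P4Mate F m) (hH : P4Prop H) {c : β} (hc : c ≠ o) :
    P4Prop (twist F H m hm o) := by
  intro x y hxy hn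
  by_cases h : x.1 = y.1
  · rw [twist_adj_of_eq h] at hn
    obtain ⟨u, v, h1, h2, h3, h4, h5, h6, h7⟩ := hH x.2 y.2 (fun e => hxy (Prod.ext h e)) hn
    refine ⟨(x.1, u), (x.1, v), ?_, ?_, ?_, ?_, ?_, ?_, ?_⟩
    · exact Or.inl ⟨rfl, h1⟩
    · exact Or.inl ⟨rfl, h2⟩
    · exact Or.inl ⟨h, h3⟩
    · rw [twist_adj_of_eq (x := x) (y := (x.1, v)) rfl]; exact h4
    · rw [twist_adj_of_eq (x := (x.1, u)) (y := y) h]; exact h5
    · exact fun e => h6 (congrArg Prod.snd e)
    · exact fun e => h7 (congrArg Prod.snd e)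
  · rw [twist_adj_of_ne h] at hn
    obtain ⟨u, v, h1, h2, h3, h4, h5, h6, h7⟩ := hF x.1 y.1 h (by tauto)
    refine ⟨(u, c), (v, c), ?_, ?_, ?_, ?_, ?_, ?_, ?_⟩
    · rw [twist_adj_right (x := x) (y := (u, c)) h1.ne hc]; exact h1
    · rw [twist_adj_right (x := (u, c)) (y := (v, c)) h2.ne hc]; exact h2
    · rw [twist_adj_left (x := (v, c)) (y := y) h3.ne hc]; exact h3
    · rw [twist_adj_right (x := x) (y := (v, c)) h6 hc]; exact h4
    · rw [twist_adj_left (x := (u, c)) (y := y) h7 hc]; exact h5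
    · exact fun e => h6 (congrArg Prod.fst e)
    · exact fun e => h7 (congrArg Prod.fst e)

/-- three pairwise distinct, pairwise non-adjacent vertices other than `o` -/
def Ind3' (G : SimpleGraph β) (o : β) : Prop :=
  ∃ a b c, a ≠ b ∧ a ≠ c ∧ b ≠ c ∧ ¬ G.Adj a b ∧ ¬ G.Adj a c ∧ ¬ G.Adj b c ∧
    a ≠ o ∧ b ≠ o ∧ c ≠ o

lemma even_external_twist {F : SimpleGraph α} {H : SimpleGraph β} {m : α → α}
    {hm : ∀ u, m (m u) = u} {o : β} (hF : CommonNbr F) (hH : Ind3' H o)
    (ho : ∃ c, H.Adj c o) [Nonempty α] {K₁ K₂ : Set (α × β)}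
    (h₁ : Maximal (twist F H m hm o).IsClique K₁) (h₂ : Maximal (twist F H m hm o).IsClique K₂) :
    ∃ a ∈ K₁, ∃ b ∈ K₂, ∃ p : (twist F H m hm o).Walk a b, p.IsPath ∧ p.IsChordless ∧
      (∀ v ∈ p.support, v ≠ a → v ≠ b → v ∉ K₁ ∪ K₂) ∧ Even p.length := by
  obtain ⟨c1, c2, c3, n12, n13, n23, a12, a13, a23, o1, o2, o3⟩ := hH
  by_cases hdis : ∃ b ∈ K₂, b ∈ K₁
  · obtain ⟨b, hb, hb1⟩ := hdis
    refine ⟨b, hb1, b, hb, Walk.nil, by simp, ?_, by simp, by simp⟩
    rw [Walk.isChordless_iff_forall_mem_edges]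
    intro u v hu hv huv
    simp only [Walk.support_nil, List.mem_singleton] at hu hv
    subst hu hv
    exact absurd huv (twist F H m hm o).irrefl
  push Not at hdis
  have hgood : ∃ b ∈ K₂, b.2 ≠ o ∨ (m b.1, o) ∉ K₁ := by
    by_contra hcon
    push Not at hcon
    have hne : K₂.Nonempty := by
      by_contra h
      rw [Set.not_nonempty_iff_eq_empty] at h
      have := h₂.2 (y := {(Classical.arbitrary α, c1)}) (isClique_singleton _) (by simp [h])
      simp [h] at this
    obtain ⟨b, hb⟩ := hne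
    obtain ⟨c, hc⟩ := ho
    have hcl : (twist F H m hm o).IsClique (insert (b.1, c) K₂) := by
      apply h₂.1.insert
      intro a ha _
      by_cases e : b.1 = a.1
      · rw [twist_adj_of_eq (x := (b.1, c)) (y := a) e, (hcon a ha).1]
        exact hc
      · rw [twist_adj_left (x := (b.1, c)) (y := a) e hc.ne]
        have hab : b ≠ a := fun e' => e (congrArg Prod.fst e')
        have := h₂.1 hb ha hab
        rwa [twist_adj_plain e] at this
        rintro ⟨e1, -, e3⟩
        have : a = (m b.1, o) := Prod.ext e1 e3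
        exact hdis a ha (this ▸ (hcon b hb).2)
    have hmem : (b.1, c) ∈ K₂ := h₂.2 hcl (Set.subset_insert _ _) (Set.mem_insert _ _)
    exact hc.ne (hcon _ hmem).1
  obtain ⟨b, hb, hbg⟩ := hgood
  have hb1 := hdis b hb
  have : ∃ a ∈ K₁, ¬ (twist F H m hm o).Adj a b := by
    by_contra h
    push Not at h
    have hc : (twist F H m hm o).IsClique (insert b K₁) :=
      h₁.1.insert (fun a ha _ => (h a ha).symm)
    exact hb1 (h₁.2 hc (Set.subset_insert _ _) (Set.mem_insert _ _))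
  obtain ⟨a, ha, hab⟩ := this
  have hne : a ≠ b := fun e => hb1 (e ▸ ha)
  have hFab : ¬ F.Adj a.1 b.1 := by
    intro h
    apply hab
    rw [twist_adj_plain h.ne]
    · exact h
    · rintro ⟨e1, e2, e3⟩
      rcases hbg with h' | h'
      · exact h' e3
      · apply h'
        have : a = (m b.1, o) := Prod.ext (by rw [e1, hm]) e2
        exact this ▸ ha
  obtain ⟨w, hm1, hm2⟩ := hF a.1 b.1 hFab
  have hc : ∃ c : β, c ≠ o ∧ (w, c) ∉ K₁ ∪ K₂ := by
    by_contra h
    push Not at h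
    have hcl : ∀ K : Set (α × β), (twist F H m hm o).IsClique K → ∀ x y : β, x ≠ y →
        ¬ H.Adj x y → (w, x) ∈ K → (w, y) ∈ K → False := by
      intro K hK x y hxy hn hx hy
      have := hK hx hy (fun e => hxy (congrArg Prod.snd e))
      rw [twist_adj_of_eq (x := (w, x)) (y := (w, y)) rfl] at this
      exact hn this
    rcases h c1 o1 with e1 | e1 <;> rcases h c2 o2 with e2 | e2 <;> rcases h c3 o3 with e3 | e3
    · exact hcl _ h₁.1 _ _ n12 a12 e1 e2
    · exact hcl _ h₁.1 _ _ n12 a12 e1 e2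
    · exact hcl _ h₁.1 _ _ n13 a13 e1 e3
    · exact hcl _ h₂.1 _ _ n23 a23 e2 e3
    · exact hcl _ h₁.1 _ _ n23 a23 e2 e3
    · exact hcl _ h₂.1 _ _ n13 a13 e1 e3
    · exact hcl _ h₂.1 _ _ n12 a12 e1 e2
    · exact hcl _ h₂.1 _ _ n12 a12 e1 e2
  obtain ⟨c, hco, hc⟩ := hc
  have e1 : (twist F H m hm o).Adj a (w, c) := by
    rw [twist_adj_right (x := a) (y := (w, c)) hm1.ne hco]; exact hm1
  have e2 : (twist F H m hm o).Adj (w, c) b := by
    rw [twist_adj_left (x := (w, c)) (y := b) hm2.ne hco]; exact hm2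
  have hab' : ¬ (twist F H m hm o).Adj b a := fun h => hab h.symm
  refine ⟨a, ha, b, hb, Walk.cons e1 (Walk.cons e2 Walk.nil), ?_, ?_, ?_, by simp⟩
  · simp [Walk.isPath_def, e1.ne, e2.ne, hne]
  · rw [Walk.isChordless_iff_forall_mem_edges]
    intro u v hu hv huv
    simp only [Walk.support_cons, Walk.support_nil, List.mem_cons, List.not_mem_nil,
      or_false] at hu hv
    rcases hu with rfl | rfl | rfl <;> rcases hv with rfl | rfl | rfl <;>
      first
      | exact absurd huv ((twist F H m hm o).irrefl)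
      | contradiction
      | simp
  · intro v hv h1 h2
    simp only [Walk.support_cons, Walk.support_nil, List.mem_cons, List.not_mem_nil,
      or_false] at hv
    rcases hv with rfl | rfl | rfl
    · exact absurd rfl h1
    · exact hc
    · exact absurd rfl h2

/-- `S` contains every vertex that has a neighbour and a non-neighbour in `S` -/
def ClosedSet (G : SimpleGraph α) (S : Set α) : Prop :=
  ∀ z, ∀ s ∈ S, ∀ t ∈ S, G.Adj z s → ¬ G.Adj z t → z ∈ S

/-- a closed set with two elements is everything -/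
def PrimeC (G : SimpleGraph α) : Prop :=
  ∀ S : Set α, ClosedSet G S → ∀ a ∈ S, ∀ b ∈ S, a ≠ b → ∀ z, z ∈ S

lemma primeC_twist {F : SimpleGraph α} {H : SimpleGraph β} {m : α → α}
    {hm : ∀ u, m (m u) = u} {o : β} (hne : ∀ u, m u ≠ u) (hF : PrimeC F) (hH : PrimeC H)
    (hnb : ∀ w, ∃ s t, F.Adj w s ∧ ¬ F.Adj w t ∧ w ≠ t) {c d : β} (hc : c ≠ o) (hd : d ≠ o)
    (hcd : c ≠ d) : PrimeC (twist F H m hm o) := by
  intro S hS
  have hA : ∀ u a b, (u, a) ∈ S → (u, b) ∈ S → a ≠ b → ∀ z, (u, z) ∈ S := by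
    intro u a b ha hb hab
    refine hH {z | (u, z) ∈ S} ?_ a ha b hb hab
    intro z s hs t ht h1 h2
    refine hS (u, z) (u, s) hs (u, t) ht ?_ ?_
    · rw [twist_adj_of_eq (x := (u, z)) (y := (u, s)) rfl]; exact h1
    · rw [twist_adj_of_eq (x := (u, z)) (y := (u, t)) rfl]; exact h2
  have hstep : ∀ w s t a b e, (s, a) ∈ S → (t, b) ∈ S → F.Adj w s → ¬ F.Adj w t → w ≠ t →
      e ≠ o → (w, e) ∈ S := by
    intro w s t a b e ha hb h1 h2 h3 he
    refine hS (w, e) (s, a) ha (t, b) hb ?_ ?_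
    · rw [twist_adj_left (x := (w, e)) (y := (s, a)) h1.ne he]; exact h1
    · rw [twist_adj_left (x := (w, e)) (y := (t, b)) h3 he]; exact h2
  have hB : ∀ x ∈ S, ∀ y ∈ S, x.1 ≠ y.1 → ∀ z, z ∈ S := by
    intro x hx y hy hxy
    have hP : ∀ w, w ∈ {w | ∃ a, (w, a) ∈ S} := by
      refine hF _ ?_ x.1 ⟨x.2, hx⟩ y.1 ⟨y.2, hy⟩ hxy
      rintro w s ⟨a, ha⟩ t ⟨b, hb⟩ h1 h2
      by_cases e : w = t
      · exact ⟨b, e ▸ hb⟩
      · exact ⟨c, hstep w s t a b c ha hb h1 h2 e hc⟩
    rintro ⟨w, z⟩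
    obtain ⟨s, t, h1, h2, h3⟩ := hnb w
    obtain ⟨a, ha⟩ := hP s
    obtain ⟨b, hb⟩ := hP t
    exact hA w c d (hstep w s t a b c ha hb h1 h2 h3 hc) (hstep w s t a b d ha hb h1 h2 h3 hd)
      hcd z
  intro x hx y hy hxy
  by_cases h : x.1 = y.1
  · have hall := hA x.1 x.2 y.2 hx (by rw [h]; exact hy) (fun e => hxy (Prod.ext h e))
    have e1 : (twist F H m hm o).Adj (m x.1, o) (x.1, c) ↔ F.Adj (m x.1) x.1 :=
      twist_adj_right (x := (m x.1, o)) (y := (x.1, c)) (hne _) hc
    have e2 : (twist F H m hm o).Adj (m x.1, o) (x.1, o) ↔ ¬ F.Adj (m x.1) x.1 := by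
      rw [twist_adj_of_ne (x := (m x.1, o)) (y := (x.1, o)) (hne _)]
      simp [hm]
    have hy' : (m x.1, o) ∈ S := by
      by_cases hh : F.Adj (m x.1) x.1
      · exact hS _ _ (hall c) _ (hall o) (e1.2 hh) (fun h' => e2.1 h' hh)
      · exact hS _ _ (hall o) _ (hall c) (e2.2 hh) (fun h' => hh (e1.1 h'))
    exact hB x hx _ hy' (hne _).symm
  · exact hB x hx y hy h

end Pool.Agent.P.MP_42d775_co
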