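import Mathlib
import Pool.Agent.P.MP_42d775_co.Twist

set_option autoImplicit false

open SimpleGraph

namespace Pool.Agent.P.MP_42d775_co

/-- the 3 by 3 rook graph without the cell `(2, 2)`; the vertex `i` is the cell `(i / 3, i % 3)` -/
def base : SimpleGraph (Fin 8) where
  Adj x y := x ≠ y ∧ (x.val / 3 = y.val / 3 ∨ x.val % 3 = y.val % 3)
  symm := ⟨fun _ _ h => ⟨h.1.symm, h.2.imp Eq.symm Eq.symm⟩⟩
  loopless := ⟨fun _ h => h.1 rfl⟩

instance : DecidableRel base.Adj := fun x y =>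
  inferInstanceAs (Decidable (x ≠ y ∧ (x.val / 3 = y.val / 3 ∨ x.val % 3 = y.val % 3)))

/-- the four pairs `0 4`, `1 3`, `2 5`, `6 7` -/
def mate : Fin 8 → Fin 8 := ![4, 3, 5, 1, 0, 2, 7, 6]

lemma mate_mate : ∀ u, mate (mate u) = u := by decide
lemma mate_ne : ∀ u, mate u ≠ u := by decide

def End5 (A : Fin 8 → Fin 8 → Prop) (a b c d : Fin 8) : Prop :=
  ∀ e, A d e → A a e → ¬ A b e → ¬ A c e → False

def No5 (A : Fin 8 → Fin 8 → Prop) : Prop :=
  ∀ a b, A a b → ∀ c, A b c → ¬ A a c → ∀ d, A c d → ¬ A a d → ¬ A b d → End5 A a b c d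

def End7g (A : Fin 8 → Fin 8 → Prop) (a b c d e f : Fin 8) : Prop :=
  ∀ g, A f g → A a g → ¬ A b g → ¬ A c g → ¬ A d g → ¬ A e g → False

def End7f (A : Fin 8 → Fin 8 → Prop) (a b c d e : Fin 8) : Prop :=
  ∀ f, A e f → ¬ A a f → ¬ A b f → ¬ A c f → ¬ A d f → End7g A a b c d e f

def End7e (A : Fin 8 → Fin 8 → Prop) (a b c d : Fin 8) : Prop :=
  ∀ e, A d e → ¬ A a e → ¬ A b e → ¬ A c e → End7f A a b c d e

def No7 (A : Fin 8 → Fin 8 → Prop) : Prop :=
  ∀ a b, A a b → ∀ c, A b c → ¬ A a c → ∀ d, A c d → ¬ A a d → ¬ A b d → End7e A a b c d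

instance (A : Fin 8 → Fin 8 → Prop) [DecidableRel A] (a b c d : Fin 8) :
    Decidable (End5 A a b c d) := by
  unfold End5; infer_instance

instance (A : Fin 8 → Fin 8 → Prop) [DecidableRel A] : Decidable (No5 A) := by
  unfold No5; infer_instance

instance (A : Fin 8 → Fin 8 → Prop) [DecidableRel A] (a b c d e f : Fin 8) :
    Decidable (End7g A a b c d e f) := by
  unfold End7g; infer_instance

instance (A : Fin 8 → Fin 8 → Prop) [DecidableRel A] (a b c d e : Fin 8) :
    Decidable (End7f A a b c d e) := by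
  unfold End7f; infer_instance

instance (A : Fin 8 → Fin 8 → Prop) [DecidableRel A] (a b c d : Fin 8) :
    Decidable (End7e A a b c d) := by
  unfold End7e; infer_instance

instance (A : Fin 8 → Fin 8 → Prop) [DecidableRel A] : Decidable (No7 A) := by
  unfold No7; infer_instance

lemma noOddHole_fin8 (K : SimpleGraph (Fin 8)) (h5 : No5 K.Adj) (h7 : No7 K.Adj) :
    NoOddHole K := by
  intro n hn hodd ⟨f⟩
  have hle : n ≤ 8 := by simpa using Fintype.card_le_of_injective f f.injective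
  have hn' : n = 5 ∨ n = 7 := by
    obtain ⟨k, hk⟩ := hodd
    omega
  rcases hn' with rfl | rfl
  · refine h5 (f 0) (f 1) ?_ (f 2) ?_ ?_ (f 3) ?_ ?_ ?_ (f 4) ?_ ?_ ?_ ?_ <;>
      rw [f.map_rel_iff] <;> decide
  · refine h7 (f 0) (f 1) ?_ (f 2) ?_ ?_ (f 3) ?_ ?_ ?_ (f 4) ?_ ?_ ?_ ?_ (f 5) ?_ ?_ ?_ ?_ ?_
      (f 6) ?_ ?_ ?_ ?_ ?_ ?_ <;> rw [f.map_rel_iff] <;> decide

/-- adjacency of `F` with the four pairs set to given values -/
def setPairs (F : SimpleGraph (Fin 8)) (b0 b1 b2 b3 : Bool) (u v : Fin 8) : Prop :=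
  (v = mate u ∧ ![b0, b1, b2, b1, b0, b2, b3, b3] u = true) ∨ (v ≠ mate u ∧ F.Adj u v)

instance (F : SimpleGraph (Fin 8)) [DecidableRel F.Adj] (b0 b1 b2 b3 : Bool) :
    DecidableRel (setPairs F b0 b1 b2 b3) := fun u v =>
  inferInstanceAs (Decidable
    ((v = mate u ∧ ![b0, b1, b2, b1, b0, b2, b3, b3] u = true) ∨ (v ≠ mate u ∧ F.Adj u v)))

lemma allNoOddHole_of_check (F : SimpleGraph (Fin 8))
    (h5 : ∀ b0 b1 b2 b3, No5 (setPairs F b0 b1 b2 b3))
    (h7 : ∀ b0 b1 b2 b3, No7 (setPairs F b0 b1 b2 b3)) : AllNoOddHole F mate := by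
  classical
  intro K hK
  have e : K.Adj = setPairs F (decide (K.Adj 0 4)) (decide (K.Adj 1 3)) (decide (K.Adj 2 5))
      (decide (K.Adj 6 7)) := by
    funext u v
    apply propext
    unfold setPairs
    by_cases h : v = mate u
    · subst h
      simp only [true_and, ne_eq, not_true_eq_false, false_and, or_false]
      fin_cases u <;> simp [mate, K.adj_comm]
    · simp only [h, false_and, ne_eq, not_false_eq_true, true_and, false_or]
      by_cases huv : u = v
      · subst huv; simp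
      · exact hK u v huv h
  apply noOddHole_fin8
  · rw [e]; exact h5 _ _ _ _
  · rw [e]; exact h7 _ _ _ _

lemma base_no5 : ∀ b0 b1 b2 b3, No5 (setPairs base b0 b1 b2 b3) := by
  decide +kernel
lemma base_no7 : ∀ b0 b1 b2 b3, No7 (setPairs base b0 b1 b2 b3) := by
  decide +kernel
lemma basec_no5 : ∀ b0 b1 b2 b3, No5 (setPairs baseᶜ b0 b1 b2 b3) := by
  decide +kernel
lemma basec_no7 : ∀ b0 b1 b2 b3, No7 (setPairs baseᶜ b0 b1 b2 b3) := by
  decide +kernel

lemma base_all : AllNoOddHole base mate := allNoOddHole_of_check base base_no5 base_no7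
lemma basec_all : AllNoOddHole baseᶜ mate := allNoOddHole_of_check baseᶜ basec_no5 basec_no7
lemma base_noOddHole : NoOddHole base := base_all base (fun _ _ _ _ => Iff.rfl)
lemma basec_noOddHole : NoOddHole baseᶜ := basec_all baseᶜ (fun _ _ _ _ => Iff.rfl)

lemma base_p4 : P4Prop base := by unfold P4Prop; decide +kernel
lemma basec_p4 : P4Prop baseᶜ := by unfold P4Prop; decide +kernel
lemma base_p4m : P4Mate base mate := by unfold P4Mate; decide +kernel
lemma basec_p4m : P4Mate baseᶜ mate := by unfold P4Mate; decide +kernel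
lemma base_cn : CommonNbr base := by unfold CommonNbr; decide +kernel
lemma basec_cn : CommonNbr baseᶜ := by unfold CommonNbr; decide +kernel
lemma base_ind3 : Ind3' base 0 := ⟨1, 5, 6, by decide +kernel⟩
lemma basec_ind3 : Ind3' baseᶜ 0 := ⟨3, 4, 5, by decide +kernel⟩
lemma base_o : ∃ c, base.Adj c 0 := ⟨1, by decide +kernel⟩
lemma basec_o : ∃ c, baseᶜ.Adj c 0 := ⟨4, by decide +kernel⟩
lemma base_nb : ∀ w, ∃ s t, base.Adj w s ∧ ¬ base.Adj w t ∧ w ≠ t := by decide +kernel

/-- one closure step -/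
def clStep (S : Finset (Fin 8)) : Finset (Fin 8) :=
  Finset.univ.filter fun z => z ∈ S ∨ ∃ s ∈ S, ∃ t ∈ S, base.Adj z s ∧ ¬ base.Adj z t

lemma clStep_full : ∀ a b : Fin 8, a ≠ b → ∀ z, z ∈ clStep (clStep (clStep {a, b})) := by
  decide +kernel

lemma base_primeC : PrimeC base := by
  intro S hS a ha b hb hab z
  have h : ∀ T : Finset (Fin 8), (∀ x ∈ T, x ∈ S) → ∀ x ∈ clStep T, x ∈ S := by
    intro T hT x hx
    simp only [clStep, Finset.mem_filter, Finset.mem_univ, true_and] at hx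
    rcases hx with hx | ⟨s, hs, t, ht, h1, h2⟩
    · exact hT x hx
    · exact hS x s (hT s hs) t (hT t ht) h1 h2
  refine h _ (h _ (h _ ?_)) z (clStep_full a b hab z)
  intro x hx
  simp only [Finset.mem_insert, Finset.mem_singleton] at hx
  rcases hx with rfl | rfl
  · exact ha
  · exact hb

end Pool.Agent.P.MP_42d775_co
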